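import Pool.Agent.Q88.MK.Stm

/-!
# Project MK, job THK: the thickened curve
-/

set_option autoImplicit false

open Set MvPolynomial

namespace Pool.Agent.Q88.MK

lemma thk_pow (u y d : ℝ) (hu : 0 ≤ u) (hu1 : u ≤ 1) (hy : u ≤ y) (hy2 : y ≤ 2)
    (hd : y - u ≤ d) (j : ℕ) : |y ^ j - u ^ j| ≤ (j : ℝ) * 2 ^ j * d := by
  have hy0 : 0 ≤ y := hu.trans hy
  have hd0 : 0 ≤ d := by linarith
  induction j with
  | zero => simp
  | succ j ih =>
    have e : y ^ (j + 1) - u ^ (j + 1) = y * (y ^ j - u ^ j) + u ^ j * (y - u) := by ring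
    have h1 : |y * (y ^ j - u ^ j)| ≤ 2 * ((j : ℝ) * 2 ^ j * d) := by
      rw [abs_mul, abs_of_nonneg hy0]
      exact mul_le_mul hy2 ih (abs_nonneg _) (by norm_num)
    have h2 : |u ^ j * (y - u)| ≤ d := by
      rw [abs_mul, abs_of_nonneg (pow_nonneg hu j), abs_of_nonneg (by linarith : 0 ≤ y - u)]
      calc u ^ j * (y - u) ≤ 1 * (y - u) :=
            mul_le_mul_of_nonneg_right (pow_le_one₀ hu hu1) (by linarith)
        _ ≤ d := by linarith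
    have h3 : (1 : ℝ) ≤ 2 ^ (j + 1) := one_le_pow₀ (by norm_num)
    rw [e]
    calc |y * (y ^ j - u ^ j) + u ^ j * (y - u)|
        ≤ |y * (y ^ j - u ^ j)| + |u ^ j * (y - u)| := abs_add_le _ _
      _ ≤ 2 * ((j : ℝ) * 2 ^ j * d) + d := add_le_add h1 h2
      _ ≤ 2 * ((j : ℝ) * 2 ^ j * d) + 2 ^ (j + 1) * d := by nlinarith
      _ = ((j + 1 : ℕ) : ℝ) * 2 ^ (j + 1) * d := by push_cast; ring

theorem thk : S_thk := by
  intro s p κ x y S a m hs hsp hκ0 hκ1 hx hx1 hy1 hy2 hS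
  have hu0 : 0 ≤ x ^ s := Real.rpow_nonneg hx.le s
  have hu1 : x ^ s ≤ 1 := Real.rpow_le_one hx.le hx1 (by linarith)
  have hp0 : 0 ≤ x ^ p := Real.rpow_nonneg hx.le p
  have hp1 : x ^ p ≤ 1 := Real.rpow_le_one hx.le hx1 (by linarith)
  have hkp : κ * x ^ p ≤ 1 := by nlinarith
  have hkp0 : 0 ≤ κ * x ^ p := mul_nonneg hκ0 hp0
  have key : ∀ q ∈ S, |a q * x ^ q.1 * y ^ q.2 - a q * x ^ (E s q)|
      ≤ |a q| * ((m * 2 ^ m) * (κ * x ^ p)) := by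
    intro q hq
    have hqm : q.2 ≤ m := le_trans (Nat.le_add_left _ _) (hS q hq)
    have e1 : x ^ (E s q) = x ^ q.1 * (x ^ s) ^ q.2 := by
      unfold E
      rw [Real.rpow_add hx, Real.rpow_natCast, mul_comm (q.2 : ℝ) s, Real.rpow_mul hx.le,
        Real.rpow_natCast]
    have e2 : a q * x ^ q.1 * y ^ q.2 - a q * x ^ (E s q)
        = a q * (x ^ q.1 * (y ^ q.2 - (x ^ s) ^ q.2)) := by
      rw [e1]; ring
    rw [e2, abs_mul]
    refine mul_le_mul_of_nonneg_left ?_ (abs_nonneg _)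
    rw [abs_mul, abs_of_nonneg (pow_nonneg hx.le _)]
    have h1 : x ^ q.1 ≤ 1 := pow_le_one₀ hx.le hx1
    have h2 := thk_pow (x ^ s) y (κ * x ^ p) hu0 hu1 hy1 (by linarith) (by linarith) q.2
    calc x ^ q.1 * |y ^ q.2 - (x ^ s) ^ q.2| ≤ 1 * |y ^ q.2 - (x ^ s) ^ q.2| :=
          mul_le_mul_of_nonneg_right h1 (abs_nonneg _)
      _ ≤ (q.2 : ℝ) * 2 ^ q.2 * (κ * x ^ p) := by rw [one_mul]; exact h2
      _ ≤ (m * 2 ^ m) * (κ * x ^ p) := by
          refine mul_le_mul_of_nonneg_right ?_ hkp0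
          refine mul_le_mul (by exact_mod_cast hqm) ?_ (by positivity) (by positivity)
          exact pow_le_pow_right₀ (by norm_num) hqm
  unfold Fs fs
  rw [← Finset.sum_sub_distrib]
  calc |∑ q ∈ S, (a q * x ^ q.1 * y ^ q.2 - a q * x ^ (E s q))|
      ≤ ∑ q ∈ S, |a q * x ^ q.1 * y ^ q.2 - a q * x ^ (E s q)| := Finset.abs_sum_le_sum_abs _ _
    _ ≤ ∑ q ∈ S, |a q| * ((m * 2 ^ m) * (κ * x ^ p)) := Finset.sum_le_sum key
    _ = (∑ q ∈ S, |a q|) * (m * 2 ^ m) * (κ * x ^ p) := by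
        rw [← Finset.sum_mul]; ring

end Pool.Agent.Q88.MK
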